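import Mathlib

/-!
# Cyclicity notions for universal partial words (MP_e9025c_co, Q1, full answer)

For a universal partial word `w ≠ ◇ⁿ` for `Aⁿ`, over any finite alphabet `A` with at least two
letters (in particular over `{0,1}`), the three properties of having well-defined diamondicity,
of being pseudocyclic and of being cyclic are equivalent.
-/

namespace Pool.Agent.Results.MP_e9025c_co.Cyclicity

variable {A : Type*}

/-- The word `u ∈ Aⁿ` is covered by the partial word `w` at position `i` (`none` is the symbol
`◇`, and positions are counted from `0`). -/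
def Covered {n : ℕ} (w : List (Option A)) (u : Fin n → A) (i : ℕ) : Prop :=
  i + n ≤ w.length ∧ ∀ j : Fin n, w[i + (j : ℕ)]? = some none ∨ w[i + (j : ℕ)]? = some (some (u j))

/-- `w` is a universal partial word for `Aⁿ`. -/
def Universal (n : ℕ) (w : List (Option A)) : Prop :=
  ∀ u : Fin n → A, ∃! i, Covered w u i

/-- All windows (blocks of `n` consecutive characters) of `w` contain the same number of `◇`. -/
def WellDefinedDiamondicity (n : ℕ) (w : List (Option A)) : Prop :=
  ∃ d : ℕ, ∀ i, i + n ≤ w.length → ((w.drop i).take n).countP Option.isNone = d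

/-- The first `n - 1` characters and the last `n - 1` characters of `w` are identical. -/
def Pseudocyclic (n : ℕ) (w : List (Option A)) : Prop :=
  w.take (n - 1) = w.drop (w.length - (n - 1))

/-- The first `n - 1` characters and the last `n - 1` characters of `w` are identical, and the two
blocks do not overlap. -/
def Cyclic (n : ℕ) (w : List (Option A)) : Prop :=
  w.take (n - 1) = w.drop (w.length - (n - 1)) ∧ (n - 1) + (n - 1) ≤ w.length

/-! ### Patterns as functions -/

/-- `v` fits the pattern `g`. -/
def Fit {m : ℕ} (g : Fin m → Option A) (v : Fin m → A) : Prop :=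
  ∀ k, g k = none ∨ g k = some (v k)

theorem fit_exists [Nonempty A] {m : ℕ} (g : Fin m → Option A) : ∃ v, Fit g v := by
  classical
  obtain ⟨a⟩ := ‹Nonempty A›
  refine ⟨fun k => (g k).getD a, fun k => ?_⟩
  cases h : g k with
  | none => exact Or.inl rfl
  | some c => exact Or.inr (by simp [h])

theorem eq_some_of_fit_iff [Nontrivial A] {m : ℕ} {g h : Fin m → Option A}
    (H : ∀ v, Fit g v ↔ Fit h v) {k : Fin m} {c : A} (hk : g k = some c) : h k = some c := by
  classical
  obtain ⟨v, hv⟩ := fit_exists g
  have hvk : v k = c := by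
    rcases hv k with h1 | h1
    · rw [hk] at h1
      cases h1
    · rw [hk] at h1
      exact (Option.some.inj h1).symm
  rcases (H v).1 hv k with h1 | h1
  · exfalso
    obtain ⟨c', hc'⟩ := exists_ne c
    have h2 : Fit h (Function.update v k c') := by
      intro l
      by_cases hl : l = k
      · subst hl
        exact Or.inl h1
      · rw [Function.update_of_ne hl]
        exact (H v).1 hv l
    rcases (H _).2 h2 k with h3 | h3
    · rw [hk] at h3
      cases h3
    · rw [hk, Function.update_self] at h3
      exact hc' (Option.some.inj h3).symm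
  · rw [h1, hvk]

theorem eq_of_fit_iff [Nontrivial A] {m : ℕ} {g h : Fin m → Option A}
    (H : ∀ v, Fit g v ↔ Fit h v) : g = h := by
  funext k
  cases h1 : g k with
  | some c => exact (eq_some_of_fit_iff H h1).symm
  | none =>
    cases h2 : h k with
    | none => rfl
    | some c =>
      have := eq_some_of_fit_iff (fun v => (H v).symm) h2
      rw [h1] at this
      cases this

/-- The part of the bi-infinite picture seen from position `j`. -/
def pat (f : ℕ → Option A) (m j : ℕ) : Fin m → Option A := fun k => f (j + (k : ℕ))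

/-- The weight of a symbol: the number of letters it stands for. -/
noncomputable def wt [Fintype A] (x : Option A) : ℕ := by
  classical exact (Finset.univ.filter (fun c : A => x = none ∨ x = some c)).card

theorem wt_none [Fintype A] : wt (none : Option A) = Fintype.card A := by
  classical
  unfold wt
  simp

theorem wt_some [Fintype A] (c : A) : wt (some c) = 1 := by
  classical
  unfold wt
  rw [Finset.card_eq_one]
  refine ⟨c, ?_⟩
  ext d
  simp [eq_comm]

theorem wt_pos [Fintype A] [Nonempty A] (x : Option A) : 1 ≤ wt x := by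
  cases x with
  | none => rw [wt_none]; exact Fintype.card_pos
  | some c => rw [wt_some]

/-- Covering, for functions. -/
def Cov {n : ℕ} (f : ℕ → Option A) (u : Fin n → A) (i : ℕ) : Prop := Fit (pat f n i) u

theorem cov_snoc {m : ℕ} (f : ℕ → Option A) (v : Fin m → A) (c : A) (i : ℕ) :
    Cov f (Fin.snoc v c : Fin (m + 1) → A) i ↔
      Fit (pat f m i) v ∧ (f (i + m) = none ∨ f (i + m) = some c) := by
  unfold Cov Fit pat
  rw [Fin.forall_fin_succ']
  simp

theorem cov_cons {m : ℕ} (f : ℕ → Option A) (v : Fin m → A) (c : A) (i : ℕ) :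
    Cov f (Fin.cons c v : Fin (m + 1) → A) i ↔
      (f i = none ∨ f i = some c) ∧ Fit (pat f m (i + 1)) v := by
  unfold Cov Fit pat
  rw [Fin.forall_fin_succ]
  simp only [Fin.val_zero, add_zero, Fin.cons_zero, Fin.val_succ, Fin.cons_succ]
  constructor
  · rintro ⟨h1, h2⟩
    refine ⟨h1, fun k => ?_⟩
    have := h2 k
    rwa [show i + 1 + (k : ℕ) = i + ((k : ℕ) + 1) by omega]
  · rintro ⟨h1, h2⟩
    refine ⟨h1, fun k => ?_⟩
    have := h2 k
    rwa [show i + ((k : ℕ) + 1) = i + 1 + (k : ℕ) by omega]

open Classical in
theorem sum_one {M n : ℕ} {f : ℕ → Option A} {u : Fin n → A}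
    (H : ∃! i, i < M ∧ Cov f u i) :
    ∑ i ∈ Finset.range M, (if Cov f u i then 1 else 0) = 1 := by
  obtain ⟨i, ⟨hi, hc⟩, huniq⟩ := H
  rw [Finset.sum_eq_single i]
  · simp [hc]
  · intro j hj hji
    rw [if_neg]
    intro hcj
    exact hji (huniq j ⟨Finset.mem_range.mp hj, hcj⟩)
  · intro h
    exact absurd (Finset.mem_range.mpr hi) h

open Classical in
theorem sum_suffix [Fintype A] {M m : ℕ} {f : ℕ → Option A}
    (H : ∀ u : Fin (m + 1) → A, ∃! i, i < M ∧ Cov f u i) (v : Fin m → A) :
    ∑ i ∈ Finset.range M, (if Fit (pat f m i) v then wt (f (i + m)) else 0) = Fintype.card A := by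
  have h1 : ∑ c : A, ∑ i ∈ Finset.range M,
      (if Cov f (Fin.snoc v c : Fin (m + 1) → A) i then 1 else 0) = Fintype.card A := by
    rw [Finset.sum_congr rfl (fun c _ => sum_one (H (Fin.snoc v c : Fin (m + 1) → A)))]
    simp
  rw [← h1, Finset.sum_comm]
  apply Finset.sum_congr rfl
  intro i _
  by_cases h : Fit (pat f m i) v
  · rw [if_pos h]
    unfold wt
    rw [Finset.card_filter]
    apply Finset.sum_congr (by rfl)
    intro c _
    by_cases h2 : f (i + m) = none ∨ f (i + m) = some c
    · rw [if_pos h2, if_pos ((cov_snoc f v c i).2 ⟨h, h2⟩)]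
    · rw [if_neg h2, if_neg (fun h3 => h2 ((cov_snoc f v c i).1 h3).2)]
  · rw [if_neg h]
    symm
    apply Finset.sum_eq_zero
    intro c _
    rw [if_neg (fun h3 => h ((cov_snoc f v c i).1 h3).1)]

open Classical in
theorem sum_cons [Fintype A] {M m : ℕ} {f : ℕ → Option A}
    (H : ∀ u : Fin (m + 1) → A, ∃! i, i < M ∧ Cov f u i) (v : Fin m → A) :
    ∑ i ∈ Finset.range M, (if Fit (pat f m (i + 1)) v then wt (f i) else 0) = Fintype.card A := by
  have h1 : ∑ c : A, ∑ i ∈ Finset.range M,
      (if Cov f (Fin.cons c v : Fin (m + 1) → A) i then 1 else 0) = Fintype.card A := by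
    rw [Finset.sum_congr rfl (fun c _ => sum_one (H (Fin.cons c v : Fin (m + 1) → A)))]
    simp
  rw [← h1, Finset.sum_comm]
  apply Finset.sum_congr rfl
  intro i _
  by_cases h : Fit (pat f m (i + 1)) v
  · rw [if_pos h]
    unfold wt
    rw [Finset.card_filter]
    apply Finset.sum_congr (by rfl)
    intro c _
    by_cases h2 : f i = none ∨ f i = some c
    · rw [if_pos h2, if_pos ((cov_cons f v c i).2 ⟨h2, h⟩)]
    · rw [if_neg h2, if_neg (fun h3 => h2 ((cov_cons f v c i).1 h3).1)]
  · rw [if_neg h]
    symm
    apply Finset.sum_eq_zero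
    intro c _
    rw [if_neg (fun h3 => h ((cov_cons f v c i).1 h3).2)]

/-- Constant diamondicity, for functions, forces the two end blocks to coincide. -/
theorem ends_eq [Fintype A] [Nontrivial A] {M m : ℕ} {f : ℕ → Option A}
    (H : ∀ u : Fin (m + 1) → A, ∃! i, i < M + 1 ∧ Cov f u i)
    (hd : ∀ j, j < M → (f j = none ↔ f (j + 1 + m) = none)) :
    pat f m 0 = pat f m (M + 1) := by
  classical
  apply eq_of_fit_iff
  intro v
  have e1 := sum_suffix H v
  have e2 := sum_cons H v
  rw [Finset.sum_range_succ'] at e1
  rw [Finset.sum_range_succ] at e2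
  have e3 : ∑ i ∈ Finset.range M, (if Fit (pat f m (i + 1)) v then wt (f (i + 1 + m)) else 0) =
      ∑ i ∈ Finset.range M, (if Fit (pat f m (i + 1)) v then wt (f i) else 0) := by
    apply Finset.sum_congr rfl
    intro i hi
    have := hd i (Finset.mem_range.mp hi)
    congr 1
    cases h1 : f i with
    | none => rw [this.1 h1]
    | some c =>
      cases h2 : f (i + 1 + m) with
      | none => rw [this.2 h2] at h1; cases h1
      | some c' => rw [wt_some, wt_some]
  rw [e3] at e1
  have e4 : (if Fit (pat f m 0) v then wt (f (0 + m)) else 0) =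
      (if Fit (pat f m (M + 1)) v then wt (f M) else 0) := by omega
  have p1 := wt_pos (f (0 + m))
  have p2 := wt_pos (f M)
  by_cases h1 : Fit (pat f m 0) v <;> by_cases h2 : Fit (pat f m (M + 1)) v
  · exact ⟨fun _ => h2, fun _ => h1⟩
  · rw [if_pos h1, if_neg h2] at e4
    omega
  · rw [if_neg h1, if_pos h2] at e4
    omega
  · exact ⟨fun h => absurd h h1, fun h => absurd h h2⟩

open Classical in
theorem count_eq_one_iff [Fintype A] [Nontrivial A] {M : ℕ} {P : ℕ → Prop} {x : ℕ → Option A}
    (hs : ∑ i ∈ Finset.range M, (if P i then wt (x i) else 0) = Fintype.card A)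
    {j : ℕ} (hj : j < M) (hP : P j) :
    x j = none ↔ ∑ i ∈ Finset.range M, (if P i then 1 else 0) = 1 := by
  have hcard : 2 ≤ Fintype.card A := Fintype.one_lt_card
  rw [← Finset.add_sum_erase _ _ (Finset.mem_range.mpr hj), if_pos hP] at hs
  rw [← Finset.add_sum_erase _ _ (Finset.mem_range.mpr hj), if_pos hP]
  have hle : ∑ i ∈ (Finset.range M).erase j, (if P i then 1 else 0) ≤
      ∑ i ∈ (Finset.range M).erase j, (if P i then wt (x i) else 0) := by
    apply Finset.sum_le_sum
    intro i _
    by_cases h : P i
    · rw [if_pos h, if_pos h]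
      exact wt_pos _
    · rw [if_neg h, if_neg h]
  constructor
  · intro h
    rw [h, wt_none] at hs
    omega
  · intro h
    cases hx : x j with
    | none => rfl
    | some c =>
      exfalso
      rw [hx, wt_some] at hs
      have hz : ∑ i ∈ (Finset.range M).erase j, (if P i then 1 else 0) = 0 := by omega
      have hz2 : ∑ i ∈ (Finset.range M).erase j, (if P i then wt (x i) else 0) = 0 := by
        apply Finset.sum_eq_zero
        intro i hi
        have h1 := (Finset.sum_eq_zero_iff.mp hz) i hi
        by_cases h2 : P i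
        · rw [if_pos h2] at h1
          omega
        · rw [if_neg h2]
      omega

/-- If the two end blocks coincide, then consecutive windows have the same diamonds count. -/
theorem diamonds_eq [Fintype A] [Nontrivial A] {M m : ℕ} {f : ℕ → Option A}
    (H : ∀ u : Fin (m + 1) → A, ∃! i, i < M + 1 ∧ Cov f u i)
    (he : pat f m 0 = pat f m (M + 1)) :
    ∀ j, j < M → (f j = none ↔ f (j + 1 + m) = none) := by
  classical
  intro j hj
  obtain ⟨v, hv⟩ := fit_exists (pat f m (j + 1))
  have e1 := sum_suffix H v
  have e2 := sum_cons H v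
  have c1 := count_eq_one_iff (x := fun i => f (i + m)) e1 (j := j + 1) (by omega) hv
  have c2 := count_eq_one_iff (x := f) e2 (j := j) (by omega) hv
  have c3 : ∑ i ∈ Finset.range (M + 1), (if Fit (pat f m i) v then 1 else 0) =
      ∑ i ∈ Finset.range (M + 1), (if Fit (pat f m (i + 1)) v then 1 else 0) := by
    rw [Finset.sum_range_succ', Finset.sum_range_succ, he]
  rw [c2]
  rw [c3] at c1
  exact c1.symm

/-! ### Back to lists -/

theorem getD_window {w : List (Option A)} {x : ℕ} (hx : x < w.length) :
    w[x]? = some (w.getD x none) := by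
  rw [List.getD_eq_getElem?_getD, List.getElem?_eq_getElem hx]
  rfl

theorem covered_iff {m : ℕ} {w : List (Option A)} {M : ℕ} (hL : w.length = M + 1 + m)
    (u : Fin (m + 1) → A) (i : ℕ) :
    Covered w u i ↔ i < M + 1 ∧ Cov (fun x => w.getD x none) u i := by
  unfold Covered Cov Fit pat
  constructor
  · rintro ⟨h1, h2⟩
    refine ⟨by omega, fun k => ?_⟩
    have hk := k.isLt
    have := h2 k
    rw [getD_window (by omega)] at this
    simpa using this
  · rintro ⟨h1, h2⟩
    refine ⟨by omega, fun k => ?_⟩
    have hk := k.isLt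
    have := h2 k
    rw [getD_window (by omega)]
    simpa using this

theorem window_step {w : List (Option A)} {n i : ℕ} (h : i + n < w.length) (hn : 1 ≤ n) :
    ((w.drop i).take n).countP Option.isNone + (if w.getD (i + n) none = none then 1 else 0) =
      ((w.drop (i + 1)).take n).countP Option.isNone +
        (if w.getD i none = none then 1 else 0) := by
  classical
  obtain ⟨m, rfl⟩ : ∃ m, n = m + 1 := ⟨n - 1, by omega⟩
  have e1 : (w.drop i).take (m + 1) = w.getD i none :: ((w.drop (i + 1)).take m) := by
    rw [List.drop_eq_getElem_cons (by omega), List.take_succ_cons,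
      List.getD_eq_getElem _ _ (by omega)]
  have e2 : (w.drop (i + 1)).take (m + 1) =
      (w.drop (i + 1)).take m ++ [w.getD (i + (m + 1)) none] := by
    rw [List.take_add_one, List.getElem?_drop, show i + 1 + m = i + (m + 1) by omega,
      getD_window (by omega)]
    rfl
  rw [e1, e2, List.countP_cons, List.countP_append]
  simp only [List.countP_cons, List.countP_nil, zero_add, Option.isNone_iff_eq_none]
  omega

theorem wdd_iff {w : List (Option A)} {M m : ℕ} (hL : w.length = M + 1 + m) :
    WellDefinedDiamondicity (m + 1) w ↔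
      ∀ j, j < M → (w.getD j none = none ↔ w.getD (j + 1 + m) none = none) := by
  classical
  unfold WellDefinedDiamondicity
  constructor
  · rintro ⟨d, hd⟩ j hj
    have h1 := window_step (w := w) (n := m + 1) (i := j) (by omega) (by omega)
    rw [hd j (by omega), hd (j + 1) (by omega)] at h1
    rw [show j + (m + 1) = j + 1 + m by omega] at h1
    by_cases h2 : w.getD j none = none <;> by_cases h3 : w.getD (j + 1 + m) none = none
    · exact ⟨fun _ => h3, fun _ => h2⟩
    · rw [if_pos h2, if_neg h3] at h1
      omega
    · rw [if_neg h2, if_pos h3] at h1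
      omega
    · exact ⟨fun h => absurd h h2, fun h => absurd h h3⟩
  · intro H
    refine ⟨((w.drop 0).take (m + 1)).countP Option.isNone, ?_⟩
    intro i
    induction i with
    | zero => intro _; rfl
    | succ i ih =>
      intro hi
      rw [← ih (by omega)]
      have h1 := window_step (w := w) (n := m + 1) (i := i) (by omega) (by omega)
      have h2 := H i (by omega)
      rw [show i + (m + 1) = i + 1 + m by omega] at h1
      by_cases h3 : w.getD i none = none
      · rw [if_pos h3, if_pos (h2.1 h3)] at h1
        omega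
      · rw [if_neg h3, if_neg (fun h => h3 (h2.2 h))] at h1
        omega

theorem pseudocyclic_iff {w : List (Option A)} {M m : ℕ} (hL : w.length = M + 1 + m) :
    Pseudocyclic (m + 1) w ↔
      pat (fun x => w.getD x none) m 0 = pat (fun x => w.getD x none) m (M + 1) := by
  unfold Pseudocyclic
  rw [show w.length - (m + 1 - 1) = M + 1 by omega, show m + 1 - 1 = m by omega]
  constructor
  · intro h
    funext k
    have hk := k.isLt
    have h1 : (w.take m)[(k : ℕ)]? = (w.drop (M + 1))[(k : ℕ)]? := by rw [h]
    rw [List.getElem?_take_of_lt hk, List.getElem?_drop, getD_window (by omega),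
      getD_window (by omega)] at h1
    have h2 := Option.some.inj h1
    unfold pat
    simpa using h2
  · intro h
    apply List.ext_getElem?
    intro k
    by_cases hk : k < m
    · rw [List.getElem?_take_of_lt hk, List.getElem?_drop, getD_window (by omega),
        getD_window (by omega)]
      have := congrFun h ⟨k, hk⟩
      unfold pat at this
      simpa using this
    · rw [List.getElem?_eq_none (by rw [List.length_take]; omega),
        List.getElem?_eq_none (by rw [List.length_drop]; omega)]

/-- If the end blocks of a universal partial word overlap, the word is `◇ⁿ`. -/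
theorem overlap_trivial [Nontrivial A] {M m : ℕ} {f : ℕ → Option A}
    (H : ∀ u : Fin (m + 1) → A, ∃! i, i < M + 1 ∧ Cov f u i)
    (he : pat f m 0 = pat f m (M + 1)) (hM : M + 1 ≤ m) :
    M = 0 ∧ ∀ x, x < M + 1 + m → f x = none := by
  have hper : ∀ x, x < M + 1 + m → f x = f (x % (M + 1)) := by
    intro x
    induction x using Nat.strong_induction_on with
    | _ x ih =>
      intro hx
      by_cases h1 : x < M + 1
      · rw [Nat.mod_eq_of_lt h1]
      · have h2 : x - (M + 1) < m := by omega
        have h3 := congrFun he ⟨x - (M + 1), h2⟩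
        unfold pat at h3
        simp only [zero_add] at h3
        rw [show M + 1 + (x - (M + 1)) = x by omega] at h3
        rw [← h3, ih (x - (M + 1)) (by omega) (by omega)]
        congr 1
        conv_rhs => rw [show x = (x - (M + 1)) + (M + 1) by omega]
        rw [Nat.add_mod_right]
  have hall : ∀ c : A, ∀ x, x < M + 1 + m → f x = none ∨ f x = some c := by
    intro c x hx
    obtain ⟨i, ⟨hi, hc⟩, _⟩ := H (fun _ => c)
    have hxm : x % (M + 1) < M + 1 := Nat.mod_lt _ (by omega)
    rw [hper x hx]
    by_cases h1 : i ≤ x % (M + 1)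
    · have := hc ⟨x % (M + 1) - i, by omega⟩
      unfold pat at this
      simp only at this
      rwa [show i + (x % (M + 1) - i) = x % (M + 1) by omega] at this
    · have := hc ⟨x % (M + 1) + (M + 1) - i, by omega⟩
      unfold pat at this
      simp only at this
      rw [show i + (x % (M + 1) + (M + 1) - i) = x % (M + 1) + (M + 1) by omega,
        hper _ (by omega), Nat.add_mod_right, Nat.mod_mod] at this
      exact this
  have hnone : ∀ x, x < M + 1 + m → f x = none := by
    intro x hx
    obtain ⟨c, c', hcc⟩ := exists_pair_ne A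
    rcases hall c x hx with h1 | h1
    · exact h1
    · rcases hall c' x hx with h2 | h2
      · exact h2
      · rw [h1] at h2
        exact absurd (Option.some.inj h2) hcc
  refine ⟨?_, hnone⟩
  by_contra hM0
  obtain ⟨c, _, _⟩ := exists_pair_ne A
  obtain ⟨i, _, huniq⟩ := H (fun _ => c)
  have h0 := huniq 0 ⟨by omega, fun k => Or.inl (by
    unfold pat
    exact hnone _ (by have := k.isLt; omega))⟩
  have h1 := huniq 1 ⟨by omega, fun k => Or.inl (by
    unfold pat
    exact hnone _ (by have := k.isLt; omega))⟩
  omega

/-- **MP_e9025c_co, Q1.** Let `A` be a finite alphabet with at least two letters (for instance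
`{0,1}`) and `w` a universal partial word for `Aⁿ`, `n ≥ 1`, other than `◇ⁿ`. Then `w` has
well-defined diamondicity if and only if it is pseudocyclic, if and only if it is cyclic. -/
theorem result {A : Type} [Fintype A] (hA : 2 ≤ Fintype.card A) (n : ℕ) (hn : 1 ≤ n)
    (w : List (Option A)) (hw : Universal n w) (hnt : w ≠ List.replicate n none) :
    (WellDefinedDiamondicity n w ↔ Pseudocyclic n w) ∧ (Pseudocyclic n w ↔ Cyclic n w) := by
  have : Nontrivial A := Fintype.one_lt_card_iff_nontrivial.mp hA
  obtain ⟨m, rfl⟩ : ∃ m, n = m + 1 := ⟨n - 1, by omega⟩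
  have hlen : m + 1 ≤ w.length := by
    obtain ⟨c, _, _⟩ := exists_pair_ne A
    obtain ⟨i, ⟨hi, _⟩, _⟩ := hw (fun _ => c)
    omega
  obtain ⟨M, hL⟩ : ∃ M, w.length = M + 1 + m := ⟨w.length - (m + 1), by omega⟩
  have H : ∀ u : Fin (m + 1) → A, ∃! i, i < M + 1 ∧ Cov (fun x => w.getD x none) u i := by
    intro u
    obtain ⟨i, hi, huniq⟩ := hw u
    exact ⟨i, (covered_iff hL u i).1 hi, fun j hj => huniq j ((covered_iff hL u j).2 hj)⟩
  refine ⟨?_, ?_⟩
  · rw [wdd_iff hL, pseudocyclic_iff hL]
    exact ⟨fun h => ends_eq H h, fun h => diamonds_eq H h⟩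
  · constructor
    · intro h
      refine ⟨h, ?_⟩
      by_contra hcon
      have he := (pseudocyclic_iff hL).1 h
      obtain ⟨hM, hnone⟩ := overlap_trivial H he (by omega)
      apply hnt
      rw [List.eq_replicate_iff]
      refine ⟨by omega, ?_⟩
      intro b hb
      obtain ⟨x, hx, hxb⟩ := List.mem_iff_getElem.mp hb
      have := hnone x (by omega)
      rw [← hxb]
      rwa [List.getD_eq_getElem _ _ hx] at this
    · intro h
      exact h.1

end Pool.Agent.Results.MP_e9025c_co.Cyclicity
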